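import Mathlib
import Pool.Agent.Q267.Perm.Abs

/-!
# MP_e1bcf3_nt: the permanent of `[|j-k| + δ_{jk}]_{1 ≤ j,k ≤ p}` modulo `p`

For every odd prime `p` the permanent of the matrix with entries `|j-k|` off the diagonal and `1`
on the diagonal, `1 ≤ j, k ≤ p`, is congruent to `1/2` modulo `p`.
-/

namespace Pool.Agent.Results.MP_e1bcf3_nt.PermAbsDiffDelta

theorem result : ∀ p : ℕ, p.Prime → p ≠ 2 →
    2 * (Matrix.of fun j k : Finset.Icc 1 p =>
      |((j : ℕ) : ℤ) - ((k : ℕ) : ℤ)| + if j = k then 1 else 0).permanent ≡ 1 [ZMOD p] := by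
  intro p hp hp2
  have := Fact.mk hp
  exact Pool.Agent.Q267.Perm.perm_abs_add hp2

end Pool.Agent.Results.MP_e1bcf3_nt.PermAbsDiffDelta
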